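import Mathlib

/-! The relations of a finitely presented solvable Lie algebra and their consequences. -/

set_option autoImplicit false

namespace Pool.Agent.Helper844.LieFP

universe u

variable {k : Type u} [Field k] {P : Type*} [LieRing P] [LieAlgebra k P]

/-- the relations -/
structure Rel (k : Type u) [Field k] {P : Type*} [LieRing P] [LieAlgebra k P] (D Q v : P) :
    Prop where
  r1 : ⁅⁅D, Q⁆, Q⁆ = 0
  r2 : ⁅⁅D, ⁅D, Q⁆⁆, D⁆ = 0
  r4 : ⁅D, v⁆ = 0
  r5 : ⁅⁅D, ⁅D, Q⁆⁆, v⁆ - v = 0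
  r6 : (2 : k) • ⁅Q, v⁆ - ⁅⁅D, Q⁆, ⁅⁅D, Q⁆, v⁆⁆ = 0
  r7 : ⁅v, ⁅⁅D, Q⁆, v⁆⁆ = 0

/-- the basis of the module -/
def vv (D Q v : P) : ℕ → P
  | 0 => v
  | i + 1 => ⁅⁅D, Q⁆, vv D Q v i⁆

variable {D Q v : P}

theorem Rel.ZQ (h : Rel k D Q v) : ⁅⁅D, ⁅D, Q⁆⁆, Q⁆ = 0 := by
  have h1 := leibniz_lie D ⁅D, Q⁆ Q
  rw [h.r1, lie_zero, lie_self, add_zero] at h1
  exact h1.symm

theorem Rel.ZX (h : Rel k D Q v) : ⁅⁅D, ⁅D, Q⁆⁆, ⁅D, Q⁆⁆ = 0 := by
  rw [leibniz_lie, h.r2, h.ZQ, zero_lie, lie_zero, add_zero]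

theorem Rel.Zv (h : Rel k D Q v) (i : ℕ) : ⁅⁅D, ⁅D, Q⁆⁆, vv D Q v i⁆ = vv D Q v i := by
  induction i with
  | zero => exact sub_eq_zero.1 h.r5
  | succ i ih =>
    rw [vv, leibniz_lie, h.ZX, zero_lie, zero_add, ih]

theorem Rel.Dv (h : Rel k D Q v) (i : ℕ) : ⁅D, vv D Q v (i + 1)⁆ = ((i : k) + 1) • vv D Q v i := by
  induction i with
  | zero =>
    have h1 : ⁅⁅D, ⁅D, Q⁆⁆, v⁆ = v := sub_eq_zero.1 h.r5
    change ⁅D, ⁅⁅D, Q⁆, v⁆⁆ = (((0 : ℕ) : k) + 1) • v
    rw [leibniz_lie, h.r4, lie_zero, add_zero, h1]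
    simp
  | succ i ih =>
    rw [vv, leibniz_lie, ih, h.Zv, lie_smul]
    have : ⁅⁅D, Q⁆, vv D Q v i⁆ = vv D Q v (i + 1) := rfl
    rw [this]
    push_cast
    rw [add_smul ((i : k) + 1), one_smul, add_comm]

theorem Rel.Qv (h : Rel k D Q v) (i : ℕ) : (2 : k) • ⁅Q, vv D Q v i⁆ = vv D Q v (i + 2) := by
  induction i with
  | zero => exact sub_eq_zero.1 h.r6
  | succ i ih =>
    have hQX : ⁅Q, ⁅D, Q⁆⁆ = 0 := by
      rw [← lie_skew, h.r1, neg_zero]
    rw [vv, leibniz_lie, hQX, zero_lie, zero_add, ← lie_smul, ih]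
    rfl

theorem Rel.vv0 [CharZero k] (h : Rel k D Q v) : ∀ n i j : ℕ, i + j = n → ⁅vv D Q v i, vv D Q v j⁆ = 0 := by
  -- strong induction
  have key : ∀ n, (∀ m, m ≤ n → ∀ i j, i + j = m → ⁅vv D Q v i, vv D Q v j⁆ = 0) := by
    intro n
    induction n with
    | zero =>
      intro m hm i j hij
      have hi : i = 0 := by omega
      have hj : j = 0 := by omega
      subst hi hj
      exact lie_self _
    | succ n ih =>
      intro m hm i j hij
      rcases Nat.lt_or_ge m (n + 1) with hlt | hge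
      · exact ih m (by omega) i j hij
      have hm' : m = n + 1 := by omega
      subst hm'
      -- the operator X
      have hX : ∀ a b, a + b = n → ⁅vv D Q v (a + 1), vv D Q v b⁆ =
          - ⁅vv D Q v a, vv D Q v (b + 1)⁆ := by
        intro a b hab
        have h1 := leibniz_lie ⁅D, Q⁆ (vv D Q v a) (vv D Q v b)
        rw [ih n le_rfl a b hab, lie_zero] at h1
        exact eq_neg_of_add_eq_zero_left h1.symm
      have hA : ∀ a b, a + b = n + 1 → ⁅vv D Q v a, vv D Q v b⁆ =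
          ((-1 : k) ^ a) • ⁅vv D Q v 0, vv D Q v (n + 1)⁆ := by
        intro a
        induction a with
        | zero =>
          intro b hb
          have : b = n + 1 := by omega
          subst this
          simp
        | succ a iha =>
          intro b hb
          rw [hX a b (by omega), iha (b + 1) (by omega), pow_succ, mul_neg_one, neg_smul]
      -- base element
      have h0 : ⁅vv D Q v 0, vv D Q v (n + 1)⁆ = 0 := by
        rcases n with _ | n
        · exact h.r7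
        · have h2 := leibniz_lie Q (vv D Q v 0) (vv D Q v n)
          rw [ih n (by omega) 0 n (by omega), lie_zero] at h2
          have h3 : (2 : k) • (⁅⁅Q, vv D Q v 0⁆, vv D Q v n⁆ + ⁅vv D Q v 0, ⁅Q, vv D Q v n⁆⁆) = 0 := by
            rw [← h2, smul_zero]
          have e1 : (2 : k) • ⁅⁅Q, vv D Q v 0⁆, vv D Q v n⁆ = ⁅vv D Q v (0 + 2), vv D Q v n⁆ := by
            rw [← smul_lie, h.Qv]
          have e2 : (2 : k) • ⁅vv D Q v 0, ⁅Q, vv D Q v n⁆⁆ = ⁅vv D Q v 0, vv D Q v (n + 2)⁆ := by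
            rw [← lie_smul, h.Qv]
          rw [smul_add, e1, e2, hA (0 + 2) n (by omega)] at h3
          have h4 : (2 : k) • ⁅vv D Q v 0, vv D Q v (n + 1 + 1)⁆ = 0 := by
            rw [two_smul]
            simpa using h3
          exact (smul_eq_zero.1 h4).resolve_left two_ne_zero
      rw [hA i j hij, h0, smul_zero]
  intro n i j hij
  exact key n n le_rfl i j hij

end Pool.Agent.Helper844.LieFP
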