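import Mathlib

/-! Varieties of Lie algebras, finite presentations, residually finite-dimensional algebras. -/

set_option autoImplicit false

namespace Pool.Agent.Helper844.LieFP

universe u

variable {k : Type u} [Field k]

/-- The Lie algebra `L` lies in the variety defined by the set `I` of identities: all values of
the Lie polynomials `f ∈ I` in `L` are zero. -/
def InVariety (I : Set (FreeLieAlgebra k ℕ)) (L : Type u) [LieRing L] [LieAlgebra k L] : Prop :=
  ∀ f ∈ I, ∀ v : ℕ → L, FreeLieAlgebra.lift k v f = 0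

/-- The values of the identities from `I` in the free Lie algebra on `n` generators; they generate
the verbal ideal. -/
def values (I : Set (FreeLieAlgebra k ℕ)) (n : ℕ) : Set (FreeLieAlgebra k (Fin n)) :=
  {w | ∃ f ∈ I, ∃ s : ℕ → FreeLieAlgebra k (Fin n), w = FreeLieAlgebra.lift k s f}

/-- `L` is finitely presented in the absolute sense: it is a quotient of a free Lie algebra of
finite rank by the ideal generated by a finite set. -/
def FinitelyPresented (k : Type u) [Field k] (L : Type u) [LieRing L] [LieAlgebra k L] : Prop :=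
  ∃ (n : ℕ) (R : Set (FreeLieAlgebra k (Fin n))) (φ : FreeLieAlgebra k (Fin n) →ₗ⁅k⁆ L),
    R.Finite ∧ Function.Surjective φ ∧
    φ.ker = LieSubmodule.lieSpan k (FreeLieAlgebra k (Fin n)) R

/-- `L` is finitely presented relative to the variety defined by `I`: it is a quotient of a free
Lie algebra of finite rank by the ideal generated by the verbal ideal and a finite set. -/
def FinitelyPresentedIn (I : Set (FreeLieAlgebra k ℕ)) (L : Type u) [LieRing L]
    [LieAlgebra k L] : Prop :=
  ∃ (n : ℕ) (R : Set (FreeLieAlgebra k (Fin n))) (φ : FreeLieAlgebra k (Fin n) →ₗ⁅k⁆ L),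
    R.Finite ∧ Function.Surjective φ ∧
    φ.ker = LieSubmodule.lieSpan k (FreeLieAlgebra k (Fin n)) (values I n ∪ R)

/-- `L` is residually finite-dimensional: every nonzero element survives under a homomorphism
into a finite-dimensional Lie algebra. -/
def ResiduallyFiniteDimensional (k : Type u) [Field k] (L : Type u) [LieRing L]
    [LieAlgebra k L] : Prop :=
  ∀ x : L, x ≠ 0 → ∃ (B : Type u) (_ : LieRing B) (_ : LieAlgebra k B) (_ : Module.Finite k B)
    (φ : L →ₗ⁅k⁆ B), φ x ≠ 0

/-- `L` is abelian-by-(nilpotent of class at most 3): it satisfies the identity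
`[[x₁,x₂,x₃,x₄],[y₁,y₂,y₃,y₄]] = 0` (left-normed commutators). -/
def AbelianByNilpotent3 (L : Type u) [LieRing L] : Prop :=
  ∀ x₁ x₂ x₃ x₄ y₁ y₂ y₃ y₄ : L, ⁅⁅⁅⁅x₁, x₂⁆, x₃⁆, x₄⁆, ⁅⁅⁅y₁, y₂⁆, y₃⁆, y₄⁆⁆ = 0

end Pool.Agent.Helper844.LieFP
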