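import Mathlib
import Pool.Agent.Helper844.LieFP.Core

/-! Structure of the Lie algebra. -/

set_option autoImplicit false

namespace Pool.Agent.Helper844.LieFP

universe u

variable {k : Type u} [Field k] {P : Type*} [LieRing P] [LieAlgebra k P] {D Q v : P}

/-- the module part -/
def MM (k : Type u) [Field k] {P : Type*} [LieRing P] [LieAlgebra k P] (D Q v : P) :
    Submodule k P := Submodule.span k (Set.range (vv D Q v))

theorem vv_mem (i : ℕ) : vv D Q v i ∈ MM k D Q v := Submodule.subset_span ⟨i, rfl⟩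

theorem closed_of {y : P} (h : ∀ i, ⁅y, vv D Q v i⁆ ∈ MM k D Q v) {m : P}
    (hm : m ∈ MM k D Q v) : ⁅y, m⁆ ∈ MM k D Q v := by
  induction hm using Submodule.span_induction with
  | mem x hx =>
    obtain ⟨i, rfl⟩ := hx
    exact h i
  | zero => rw [lie_zero]; exact zero_mem _
  | add a b _ _ ha hb => rw [lie_add]; exact add_mem ha hb
  | smul t a _ ha => rw [lie_smul]; exact Submodule.smul_mem _ _ ha

theorem Rel.D_mem (h : Rel k D Q v) {m : P} (hm : m ∈ MM k D Q v) : ⁅D, m⁆ ∈ MM k D Q v := by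
  refine closed_of (fun i => ?_) hm
  rcases i with _ | i
  · have : ⁅D, vv D Q v 0⁆ = 0 := h.r4
    rw [this]
    exact zero_mem _
  · rw [h.Dv]
    exact Submodule.smul_mem _ _ (vv_mem i)

theorem Rel.Q_mem [CharZero k] (h : Rel k D Q v) {m : P} (hm : m ∈ MM k D Q v) :
    ⁅Q, m⁆ ∈ MM k D Q v := by
  refine closed_of (fun i => ?_) hm
  have h1 : ⁅Q, vv D Q v i⁆ = ((2 : k)⁻¹) • vv D Q v (i + 2) := by
    rw [← h.Qv, smul_smul, inv_mul_cancel₀ two_ne_zero, one_smul]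
  rw [h1]
  exact Submodule.smul_mem _ _ (vv_mem _)

theorem X_mem {m : P} (hm : m ∈ MM k D Q v) : ⁅⁅D, Q⁆, m⁆ ∈ MM k D Q v :=
  closed_of (fun i => vv_mem (i + 1)) hm

theorem Rel.Z_mem (h : Rel k D Q v) {m : P} (hm : m ∈ MM k D Q v) :
    ⁅⁅D, ⁅D, Q⁆⁆, m⁆ ∈ MM k D Q v :=
  closed_of (fun i => by rw [h.Zv]; exact vv_mem i) hm

theorem Rel.MM_lie [CharZero k] (h : Rel k D Q v) {m m' : P} (hm : m ∈ MM k D Q v)
    (hm' : m' ∈ MM k D Q v) : ⁅m, m'⁆ = 0 := by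
  induction hm using Submodule.span_induction with
  | mem x hx =>
    obtain ⟨i, rfl⟩ := hx
    induction hm' using Submodule.span_induction with
    | mem x hx =>
      obtain ⟨j, rfl⟩ := hx
      exact h.vv0 _ i j rfl
    | zero => rw [lie_zero]
    | add a b _ _ ha hb => rw [lie_add, ha, hb, add_zero]
    | smul t a _ ha => rw [lie_smul, ha, smul_zero]
  | zero => rw [zero_lie]
  | add a b _ _ ha hb => rw [add_lie, ha, hb, add_zero]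
  | smul t a _ ha => rw [smul_lie, ha, smul_zero]

theorem table {X Z : P} (hDQ : ⁅D, Q⁆ = X) (hDX : ⁅D, X⁆ = Z) (hZD : ⁅Z, D⁆ = 0)
    (hXQ : ⁅X, Q⁆ = 0) (hZQ : ⁅Z, Q⁆ = 0) (hZX : ⁅Z, X⁆ = 0) (a b c d a' b' c' d' : k) :
    ⁅a • D + b • Q + c • X + d • Z, a' • D + b' • Q + c' • X + d' • Z⁆ =
      (a * b' - b * a') • X + (a * c' - c * a') • Z := by
  have h1 : ⁅Q, D⁆ = - X := by rw [← hDQ, lie_skew]
  have h2 : ⁅X, D⁆ = - Z := by rw [← hDX, lie_skew]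
  have h3 : ⁅D, Z⁆ = 0 := by rw [← lie_skew, hZD, neg_zero]
  have h4 : ⁅Q, X⁆ = 0 := by rw [← lie_skew, hXQ, neg_zero]
  have h5 : ⁅Q, Z⁆ = 0 := by rw [← lie_skew, hZQ, neg_zero]
  have h6 : ⁅X, Z⁆ = 0 := by rw [← lie_skew, hZX, neg_zero]
  simp only [add_lie, lie_add, smul_lie, lie_smul, lie_self, hDQ, hDX, hZD, hXQ, hZQ, hZX, h1,
    h2, h3, h4, h5, h6, smul_zero, add_zero, zero_add]
  module

/-- the form of the elements -/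
def Form (k : Type u) [Field k] {P : Type*} [LieRing P] [LieAlgebra k P] (D Q v : P)
    (a b c d : k) (y : P) : Prop :=
  ∃ m ∈ MM k D Q v, y = a • D + b • Q + c • ⁅D, Q⁆ + d • ⁅D, ⁅D, Q⁆⁆ + m

theorem Rel.E_mem [CharZero k] (h : Rel k D Q v) (a b c d : k) {m : P}
    (hm : m ∈ MM k D Q v) :
    ⁅a • D + b • Q + c • ⁅D, Q⁆ + d • ⁅D, ⁅D, Q⁆⁆, m⁆ ∈ MM k D Q v := by
  simp only [add_lie, smul_lie]
  refine add_mem (add_mem (add_mem ?_ ?_) ?_) ?_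
  · exact Submodule.smul_mem _ _ (h.D_mem hm)
  · exact Submodule.smul_mem _ _ (h.Q_mem hm)
  · exact Submodule.smul_mem _ _ (X_mem hm)
  · exact Submodule.smul_mem _ _ (h.Z_mem hm)

theorem Rel.form_lie [CharZero k] (h : Rel k D Q v) {a b c d a' b' c' d' : k} {y y' : P}
    (hy : Form k D Q v a b c d y) (hy' : Form k D Q v a' b' c' d' y') :
    Form k D Q v 0 0 (a * b' - b * a') (a * c' - c * a') ⁅y, y'⁆ := by
  obtain ⟨m, hm, rfl⟩ := hy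
  obtain ⟨m', hm', rfl⟩ := hy'
  refine ⟨⁅a • D + b • Q + c • ⁅D, Q⁆ + d • ⁅D, ⁅D, Q⁆⁆, m'⁆ -
    ⁅a' • D + b' • Q + c' • ⁅D, Q⁆ + d' • ⁅D, ⁅D, Q⁆⁆, m⁆,
    sub_mem (h.E_mem a b c d hm') (h.E_mem a' b' c' d' hm), ?_⟩
  have h1 := table (k := k) (D := D) (Q := Q) rfl rfl h.r2 h.r1 h.ZQ h.ZX a b c d a' b' c' d'
  have h2 : ∀ e e' n n' : P, ⁅e + n, e' + n'⁆ = ⁅e, e'⁆ + (⁅e, n'⁆ - ⁅e', n⁆) + ⁅n, n'⁆ := by
    intro e e' n n'
    rw [add_lie, lie_add, lie_add, ← lie_skew n e']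
    abel
  rw [h2, h1, h.MM_lie hm hm', add_zero, zero_smul, zero_smul, zero_add, zero_add]

/-- the Lie subalgebra of all elements of the form -/
def Rel.sub [CharZero k] (h : Rel k D Q v) : LieSubalgebra k P where
  carrier := {y | ∃ a b c d : k, Form k D Q v a b c d y}
  add_mem' := by
    rintro y y' ⟨a, b, c, d, m, hm, rfl⟩ ⟨a', b', c', d', m', hm', rfl⟩
    refine ⟨a + a', b + b', c + c', d + d', m + m', add_mem hm hm', ?_⟩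
    module
  zero_mem' := ⟨0, 0, 0, 0, 0, zero_mem _, by simp⟩
  smul_mem' := by
    rintro t y ⟨a, b, c, d, m, hm, rfl⟩
    refine ⟨t * a, t * b, t * c, t * d, t • m, Submodule.smul_mem _ _ hm, ?_⟩
    module
  lie_mem' := by
    rintro y y' ⟨a, b, c, d, hy⟩ ⟨a', b', c', d', hy'⟩
    exact ⟨_, _, _, _, h.form_lie hy hy'⟩

/-- The identity of the variety of abelian-by-(nilpotent of class 3) Lie algebras. -/
theorem Rel.identity [CharZero k] (h : Rel k D Q v) {x₁ x₂ x₃ x₄ y₁ y₂ y₃ y₄ : P}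
    (hx₁ : x₁ ∈ h.sub) (hx₂ : x₂ ∈ h.sub) (hx₃ : x₃ ∈ h.sub) (hx₄ : x₄ ∈ h.sub)
    (hy₁ : y₁ ∈ h.sub) (hy₂ : y₂ ∈ h.sub) (hy₃ : y₃ ∈ h.sub) (hy₄ : y₄ ∈ h.sub) :
    ⁅⁅⁅⁅x₁, x₂⁆, x₃⁆, x₄⁆, ⁅⁅⁅y₁, y₂⁆, y₃⁆, y₄⁆⁆ = 0 := by
  have key : ∀ x₁ x₂ x₃ x₄ : P, x₁ ∈ h.sub → x₂ ∈ h.sub → x₃ ∈ h.sub → x₄ ∈ h.sub →
      ⁅⁅⁅x₁, x₂⁆, x₃⁆, x₄⁆ ∈ MM k D Q v := by
    rintro x₁ x₂ x₃ x₄ ⟨a, b, c, d, h1⟩ ⟨a', b', c', d', h2⟩ ⟨a₃, b₃, c₃, d₃, h3⟩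
      ⟨a₄, b₄, c₄, d₄, h4⟩
    have h12 := h.form_lie h1 h2
    have h123 := h.form_lie h12 h3
    have h1234 := h.form_lie h123 h4
    obtain ⟨m, hm, he⟩ := h1234
    rw [he]
    simp only [zero_mul, sub_self, zero_smul, zero_add]
    exact hm
  exact h.MM_lie (key _ _ _ _ hx₁ hx₂ hx₃ hx₄) (key _ _ _ _ hy₁ hy₂ hy₃ hy₄)

end Pool.Agent.Helper844.LieFP
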