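import Mathlib
import Pool.Agent.Helper844.LieFP.Defs
import Pool.Agent.Helper844.LieFP.Struct

/-! A finitely presented solvable Lie algebra that is not residually finite-dimensional. -/

set_option autoImplicit false

namespace Pool.Agent.Helper844.LieFP

universe u

variable {k : Type u} [Field k]

/-- the free Lie algebra on three generators -/
abbrev Fr (k : Type u) [Field k] : Type u := FreeLieAlgebra k (Fin 3)

/-- the relators -/
def rels (k : Type u) [Field k] {P : Type*} [LieRing P] [LieAlgebra k P] (D Q v : P) : Set P :=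
  {⁅⁅D, Q⁆, Q⁆, ⁅⁅D, ⁅D, Q⁆⁆, D⁆, ⁅D, v⁆, ⁅⁅D, ⁅D, Q⁆⁆, v⁆ - v,
    (2 : k) • ⁅Q, v⁆ - ⁅⁅D, Q⁆, ⁅⁅D, Q⁆, v⁆⁆, ⁅v, ⁅⁅D, Q⁆, v⁆⁆}

theorem rel_iff {P : Type*} [LieRing P] [LieAlgebra k P] (D Q v : P) :
    Rel k D Q v ↔ ∀ r ∈ rels k D Q v, r = 0 := by
  simp only [rels, Set.mem_insert_iff, Set.mem_singleton_iff, forall_eq_or_imp, forall_eq]
  constructor
  · intro h
    exact ⟨h.r1, h.r2, h.r4, h.r5, h.r6, h.r7⟩
  · rintro ⟨h1, h2, h3, h4, h5, h6⟩
    exact ⟨h1, h2, h3, h4, h5, h6⟩

theorem rels_map {P P' : Type*} [LieRing P] [LieAlgebra k P] [LieRing P'] [LieAlgebra k P']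
    (φ : P →ₗ⁅k⁆ P') (D Q v : P) : rels k (φ D) (φ Q) (φ v) = φ '' rels k D Q v := by
  simp only [rels, Set.image_insert_eq, Set.image_singleton, LieHom.map_lie, map_sub,
    map_smul]

/-- relators in the free Lie algebra -/
def R0 (k : Type u) [Field k] : Set (Fr k) :=
  rels k (FreeLieAlgebra.of k 0) (FreeLieAlgebra.of k 1) (FreeLieAlgebra.of k 2)

/-- the ideal -/
noncomputable def J0 (k : Type u) [Field k] : LieIdeal k (Fr k) :=
  LieSubmodule.lieSpan k (Fr k) (R0 k)

/-- the Lie algebra -/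
abbrev PP (k : Type u) [Field k] : Type u := Fr k ⧸ J0 k

/-- the projection -/
noncomputable def pr (k : Type u) [Field k] : Fr k →ₗ⁅k⁆ PP k :=
  { (LieSubmodule.Quotient.mk' (J0 k) : Fr k →ₗ[k] PP k) with
    map_lie' := fun {x y} => LieSubmodule.Quotient.mk_bracket _ x y }

theorem pr_eq_zero (x : Fr k) : pr k x = 0 ↔ x ∈ J0 k :=
  LieSubmodule.Quotient.mk_eq_zero _

theorem pr_surj : Function.Surjective (pr k) := LieSubmodule.Quotient.surjective_mk' _

theorem pr_rel : Rel k (pr k (FreeLieAlgebra.of k 0)) (pr k (FreeLieAlgebra.of k 1))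
    (pr k (FreeLieAlgebra.of k 2)) := by
  rw [rel_iff, rels_map]
  rintro _ ⟨r, hr, rfl⟩
  rw [pr_eq_zero]
  exact LieSubmodule.subset_lieSpan hr

theorem mem_sub [CharZero k] (y : PP k) : y ∈ (pr_rel (k := k)).sub := by
  obtain ⟨u, rfl⟩ := pr_surj y
  have h0 : pr k (FreeLieAlgebra.of k 0) ∈ (pr_rel (k := k)).sub :=
    ⟨1, 0, 0, 0, 0, zero_mem _, by simp⟩
  have h1 : pr k (FreeLieAlgebra.of k 1) ∈ (pr_rel (k := k)).sub :=
    ⟨0, 1, 0, 0, 0, zero_mem _, by simp⟩
  have h2 : pr k (FreeLieAlgebra.of k 2) ∈ (pr_rel (k := k)).sub :=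
    ⟨0, 0, 0, 0, _, vv_mem 0, by simp [vv]⟩
  have h3 : ∀ i : Fin 3, pr k (FreeLieAlgebra.of k i) ∈ (pr_rel (k := k)).sub := by
    intro i
    fin_cases i
    · exact h0
    · exact h1
    · exact h2
  let g : Fr k →ₗ⁅k⁆ (pr_rel (k := k)).sub :=
    FreeLieAlgebra.lift k (fun i => ⟨pr k (FreeLieAlgebra.of k i), h3 i⟩)
  have h4 : (pr_rel (k := k)).sub.incl.comp g = pr k := by
    apply FreeLieAlgebra.hom_ext
    intro i
    simp [g]
  have h6 : ((g u : (pr_rel (k := k)).sub) : PP k) = pr k u := DFunLike.congr_fun h4 u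
  rw [← h6]
  exact (g u).2

theorem pp_abn [CharZero k] : AbelianByNilpotent3 (PP k) := by
  intro x₁ x₂ x₃ x₄ y₁ y₂ y₃ y₄
  exact (pr_rel (k := k)).identity (mem_sub _) (mem_sub _) (mem_sub _) (mem_sub _) (mem_sub _)
    (mem_sub _) (mem_sub _) (mem_sub _)

/-! The model. -/

attribute [local instance] LieRing.ofAssociativeRing LieAlgebra.ofAssociativeAlgebra

/-- the space of the model -/
abbrev Md (k : Type u) [Field k] : Type u := Polynomial k × k

noncomputable def mD (k : Type u) [Field k] : Module.End k (Md k) :=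
  LinearMap.prod (Polynomial.derivative ∘ₗ LinearMap.fst k _ _) 0

noncomputable def mQ (k : Type u) [Field k] : Module.End k (Md k) :=
  LinearMap.prod (LinearMap.mulLeft k (Polynomial.C ((2 : k)⁻¹) * Polynomial.X ^ 2) ∘ₗ
    LinearMap.fst k _ _) 0

noncomputable def mv (k : Type u) [Field k] : Module.End k (Md k) :=
  LinearMap.prod (Algebra.linearMap k (Polynomial k) ∘ₗ LinearMap.snd k _ _) 0

theorem mD_apply (w : Md k) : mD k w = (Polynomial.derivative w.1, 0) := rfl
theorem mQ_apply (w : Md k) :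
    mQ k w = (Polynomial.C ((2 : k)⁻¹) * Polynomial.X ^ 2 * w.1, 0) := rfl
theorem mv_apply (w : Md k) : mv k w = (Polynomial.C w.2, 0) := rfl

theorem mX_apply [CharZero k] (w : Md k) : (⁅mD k, mQ k⁆ : Module.End k (Md k)) w =
    (Polynomial.X * w.1, 0) := by
  rw [Ring.lie_def, LinearMap.sub_apply, Module.End.mul_apply, Module.End.mul_apply]
  simp only [mD_apply, mQ_apply]
  apply Prod.ext
  · rw [Prod.fst_sub, Polynomial.derivative_mul, Polynomial.derivative_C_mul_X_sq,
      inv_mul_cancel₀ two_ne_zero, Polynomial.C_1]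
    ring
  · simp

theorem mZ_apply [CharZero k] (w : Md k) : (⁅mD k, ⁅mD k, mQ k⁆⁆ : Module.End k (Md k)) w =
    (w.1, 0) := by
  rw [Ring.lie_def (mD k), LinearMap.sub_apply, Module.End.mul_apply, Module.End.mul_apply]
  simp only [mD_apply, mX_apply]
  apply Prod.ext
  · simp only [Prod.fst_sub, Polynomial.derivative_mul, Polynomial.derivative_X]
    ring
  · simp

theorem model_rel [CharZero k] : Rel k (mD k) (mQ k) (mv k) where
  r1 := by
    refine LinearMap.ext fun w => ?_
    rw [Ring.lie_def (⁅mD k, mQ k⁆), LinearMap.sub_apply, Module.End.mul_apply,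
      Module.End.mul_apply, LinearMap.zero_apply]
    simp only [mX_apply, mQ_apply]
    apply Prod.ext
    · simp only [Prod.fst_sub, Prod.fst_zero]; ring
    · simp
  r2 := by
    refine LinearMap.ext fun w => ?_
    rw [Ring.lie_def (⁅mD k, ⁅mD k, mQ k⁆⁆), LinearMap.sub_apply, Module.End.mul_apply,
      Module.End.mul_apply, LinearMap.zero_apply]
    simp only [mZ_apply, mD_apply, sub_self]
  r4 := by
    refine LinearMap.ext fun w => ?_
    rw [Ring.lie_def, LinearMap.sub_apply, Module.End.mul_apply, Module.End.mul_apply,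
      LinearMap.zero_apply]
    simp [mD_apply, mv_apply]
  r5 := by
    refine LinearMap.ext fun w => ?_
    rw [Ring.lie_def (⁅mD k, ⁅mD k, mQ k⁆⁆), LinearMap.sub_apply, LinearMap.sub_apply,
      Module.End.mul_apply, Module.End.mul_apply, LinearMap.zero_apply]
    simp only [mZ_apply, mv_apply]
    apply Prod.ext
    · simp
    · simp
  r6 := by
    refine LinearMap.ext fun w => ?_
    rw [LinearMap.sub_apply, LinearMap.smul_apply, Ring.lie_def (mQ k),
      Ring.lie_def (⁅mD k, mQ k⁆) (⁅⁅mD k, mQ k⁆, mv k⁆), Ring.lie_def (⁅mD k, mQ k⁆) (mv k)]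
    simp only [LinearMap.sub_apply, Module.End.mul_apply, mX_apply, mQ_apply, mv_apply,
      LinearMap.zero_apply, map_sub]
    apply Prod.ext
    · simp only [Prod.fst_sub, Prod.smul_fst, Polynomial.C_0, sub_zero, mul_zero,
        Prod.fst_zero, Polynomial.smul_eq_C_mul]
      have h2 : Polynomial.C (2 : k) * Polynomial.C ((2 : k)⁻¹) = 1 := by
        rw [← Polynomial.C_mul, mul_inv_cancel₀ two_ne_zero, Polynomial.C_1]
      linear_combination (Polynomial.X ^ 2 * Polynomial.C w.2) * h2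
    · simp
  r7 := by
    refine LinearMap.ext fun w => ?_
    rw [Ring.lie_def (mv k), Ring.lie_def (⁅mD k, mQ k⁆) (mv k)]
    simp only [LinearMap.sub_apply, Module.End.mul_apply, mX_apply, mv_apply,
      LinearMap.zero_apply, map_sub]
    apply Prod.ext
    · simp
    · simp

/-- the generator of the module is not zero -/
theorem v_ne [CharZero k] : pr k (FreeLieAlgebra.of k 2) ≠ 0 := by
  intro h
  rw [pr_eq_zero] at h
  let φ : Fr k →ₗ⁅k⁆ Module.End k (Md k) := FreeLieAlgebra.lift k ![mD k, mQ k, mv k]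
  have hφ0 : φ (FreeLieAlgebra.of k 0) = mD k := by simp [φ]
  have hφ1 : φ (FreeLieAlgebra.of k 1) = mQ k := by simp [φ]
  have hφ2 : φ (FreeLieAlgebra.of k 2) = mv k := by simp [φ]
  have hle : J0 k ≤ φ.ker := by
    rw [J0, LieSubmodule.lieSpan_le]
    intro r hr
    have h1 : φ r ∈ rels k (mD k) (mQ k) (mv k) := by
      rw [← hφ0, ← hφ1, ← hφ2, rels_map]
      exact ⟨r, hr, rfl⟩
    have h2 := (rel_iff (mD k) (mQ k) (mv k)).1 model_rel _ h1
    exact (LieHom.mem_ker).2 h2
  have h3 := (LieHom.mem_ker).1 (hle h)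
  rw [hφ2] at h3
  have h4 := LinearMap.congr_fun h3 (0, 1)
  rw [mv_apply] at h4
  have h5 := congrArg Prod.fst h4
  simp at h5

/-- In a finite-dimensional Lie algebra the relations imply that `v` is zero. -/
theorem Rel.v_eq_zero [CharZero k] {B : Type u} [LieRing B] [LieAlgebra k B]
    [Module.Finite k B] {D Q v : B} (h : Rel k D Q v) : v = 0 := by
  by_contra hv
  have hne : ∀ i, vv D Q v i ≠ 0 := by
    intro i
    induction i with
    | zero => exact hv
    | succ i ih =>
      intro h0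
      have h1 := h.Dv i
      rw [h0, lie_zero] at h1
      have h2 := (smul_eq_zero.1 h1.symm).resolve_right ih
      have h3 : ((i : k) + 1) ≠ 0 := by exact_mod_cast Nat.succ_ne_zero i
      exact h3 h2
  let T : Module.End k B := LieAlgebra.ad k B ⁅D, Q⁆ * LieAlgebra.ad k B D
  have hT : ∀ i : ℕ, T (vv D Q v i) = (i : k) • vv D Q v i := by
    intro i
    rcases i with _ | i
    · have h4 : ⁅D, vv D Q v 0⁆ = 0 := h.r4
      simp only [T, Module.End.mul_apply, LieAlgebra.ad_apply, h4, lie_zero, Nat.cast_zero,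
        zero_smul]
    · simp only [T, Module.End.mul_apply, LieAlgebra.ad_apply]
      rw [h.Dv, lie_smul]
      push_cast
      rfl
  have hli : LinearIndependent k (fun i : ℕ => vv D Q v i) :=
    Module.End.eigenvectors_linearIndependent' T (fun i : ℕ => (i : k)) Nat.cast_injective _
      (fun i => ⟨Module.End.mem_eigenspace_iff.2 (hT i), hne i⟩)
  have := hli.finite_of_isNoetherian
  exact not_finite ℕ

theorem main (k : Type u) [Field k] [CharZero k] (I : Set (FreeLieAlgebra k ℕ))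
    (hI : ∀ (L : Type u) [LieRing L] [LieAlgebra k L], AbelianByNilpotent3 L → InVariety I L) :
    ∃ (L : Type u) (_ : LieRing L) (_ : LieAlgebra k L), InVariety I L ∧
      FinitelyPresented k L ∧ FinitelyPresentedIn I L ∧ ¬ ResiduallyFiniteDimensional k L := by
  have hin : InVariety I (PP k) := hI (PP k) pp_abn
  have hker : (pr k).ker = J0 k := by
    ext x
    rw [LieHom.mem_ker, pr_eq_zero]
  have hfin : (R0 k).Finite := by
    unfold R0 rels
    exact Set.toFinite _
  refine ⟨PP k, inferInstance, inferInstance, hin, ⟨3, R0 k, pr k, hfin, pr_surj, hker⟩,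
    ⟨3, R0 k, pr k, hfin, pr_surj, ?_⟩, ?_⟩
  · apply le_antisymm
    · rw [hker, J0]
      exact LieSubmodule.lieSpan_mono Set.subset_union_right
    · rw [LieSubmodule.lieSpan_le]
      rintro x (⟨f, hf, s, rfl⟩ | hx)
      · refine (LieHom.mem_ker).2 ?_
        have h1 : (pr k).comp (FreeLieAlgebra.lift k s) =
            FreeLieAlgebra.lift k (fun i => pr k (s i)) := by
          apply FreeLieAlgebra.hom_ext
          intro i
          simp
        have h2 := DFunLike.congr_fun h1 f
        rw [LieHom.comp_apply] at h2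
        rw [h2]
        exact hin f hf _
      · rw [hker]
        exact LieSubmodule.subset_lieSpan hx
  · intro hrfd
    obtain ⟨B, _, _, _, φ, hφ⟩ := hrfd _ v_ne
    apply hφ
    have h1 : Rel k (φ (pr k (FreeLieAlgebra.of k 0))) (φ (pr k (FreeLieAlgebra.of k 1)))
        (φ (pr k (FreeLieAlgebra.of k 2))) := by
      rw [rel_iff, rels_map]
      rintro _ ⟨r, hr, rfl⟩
      rw [(rel_iff _ _ _).1 pr_rel r hr, map_zero]
    exact h1.v_eq_zero

end Pool.Agent.Helper844.LieFP
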